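import Pool.Agent.V11159.RS.Main

/-! Optimality of the randomized SVD among all algorithms that use the sketches `A Ω` and
`A^* A Ω`: the lower bound of Q1, for the real and the complex field. -/

open Matrix MeasureTheory ProbabilityTheory Module
open scoped ENNReal RealInnerProductSpace

namespace Pool.Agent.Results.MP_569b71_an.RandomizedSVD

open Pool.Agent.V11159.RS Pool.Agent.V11159.RS.Stmt

/-- Q1, positive answer, real field (`α = 1`) and complex field (`α = 0`). -/
theorem result.{u} :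
    (∀ n d l : ℕ, ∀ (S : Type u) [MeasurableSpace S] (P : Measure S)
      [IsProbabilityMeasure P] (Ω : S → Matrix (Fin n) (Fin l) ℝ), Measurable Ω →
      (∀ᵐ s ∂P, (Ω s).rank = min n l) →
      ∀ q r : ℕ, 1 ≤ q → l ≤ r → r ≤ d → r ≤ n → q + 1 < l →
      ∀ alg : Matrix (Fin n) (Fin l) ℝ × Matrix (Fin d) (Fin l) ℝ × Matrix (Fin n) (Fin l) ℝ →
        Matrix (Fin d) (Fin n) ℝ, Measurable alg →
      ENNReal.ofReal (((r : ℝ) - l) / ((r : ℝ) - q) * (1 + q / ((l : ℝ) - q - 1))) ≤
        worst P Ω alg q r) ∧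
    (∀ n d l : ℕ, ∀ (S : Type u) [MeasurableSpace S] (P : Measure S)
      [IsProbabilityMeasure P] (Ω : S → Matrix (Fin n) (Fin l) ℂ), Measurable Ω →
      (∀ᵐ s ∂P, (Ω s).rank = min n l) →
      ∀ q r : ℕ, 1 ≤ q → l ≤ r → r ≤ d → r ≤ n → q < l →
      ∀ alg : Matrix (Fin n) (Fin l) ℂ × Matrix (Fin d) (Fin l) ℂ × Matrix (Fin n) (Fin l) ℂ →
        Matrix (Fin d) (Fin n) ℂ, Measurable alg →
      ENNReal.ofReal (((r : ℝ) - l) / ((r : ℝ) - q) * (1 + q / ((l : ℝ) - q))) ≤
        worst P Ω alg q r) := by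
  constructor
  · intro n d l S _ P _ Ω hΩ _ q r hq hlr hrd hrn hql alg halg
    obtain ⟨k, rfl⟩ := Nat.exists_eq_add_of_le hlr
    have hlq : (q : ℝ) + 1 < l := by exact_mod_cast hql
    have h := lower (K := ℝ) (q := q) (OrthonormalBasis.singleton (Fin 1) ℝ) (δ := 1) zero_le_one
      (by
        intro z
        simp [OrthonormalBasis.singleton_apply])
      (by simp; linarith) (by linarith) hrd hrn halg (P := P) hΩ
    refine le_trans (le_of_eq ?_) h
    congr 1
    push_cast
    simp
  · intro n d l S _ P _ Ω hΩ _ q r hq hlr hrd hrn hql alg halg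
    obtain ⟨k, rfl⟩ := Nat.exists_eq_add_of_le hlr
    have hlq : (q : ℝ) < l := by exact_mod_cast hql
    have h := lower (K := ℂ) (q := q) Complex.orthonormalBasisOneI (δ := 0) le_rfl
      (by
        intro z
        simp [Complex.coe_orthonormalBasisOneI, Fin.sum_univ_two])
      (by simp; linarith) (by linarith) hrd hrn halg (P := P) hΩ
    refine le_trans (le_of_eq ?_) h
    congr 1
    push_cast
    have hne : (l : ℝ) - q ≠ 0 := by linarith
    have e : (q : ℝ) / ((l : ℝ) - q) = 2 * (q / (2 * ((l : ℝ) - q))) := by field_simp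
    simp [← e]

end Pool.Agent.Results.MP_569b71_an.RandomizedSVD
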